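import Pool.Agent.OPH.StmtsB

set_option autoImplicit false

/-!
# Squad OPH (MP_5f6ee5_nt), row GR2: greedy digits
-/

namespace Pool.Agent.OPH.H44

open Finset Pool.Agent.OPG

theorem gr2_append (L L' : List (ℕ × ℕ)) : lsum (L ++ L') = lsum L + lsum L' := by
  unfold lsum
  rw [List.map_append, List.sum_append]

theorem gr2_copies (Λ : List (ℕ × ℕ)) (n : ℕ) : ∃ L' : List (ℕ × ℕ),
    L'.length = n * Λ.length ∧ (∀ x ∈ L', x ∈ Λ) ∧ lsum L' = n * lsum Λ := by
  induction n with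
  | zero =>
    refine ⟨[], by simp, ?_, by simp [lsum]⟩
    intro x hx
    simp at hx
  | succ n ih =>
    obtain ⟨L', h1, h2, h3⟩ := ih
    refine ⟨L' ++ Λ, ?_, ?_, ?_⟩
    · rw [List.length_append, h1]; ring
    · intro x hx
      rcases List.mem_append.mp hx with hx | hx
      · exact h2 x hx
      · exact hx
    · rw [gr2_append, h3]
      push_cast
      ring

/-- one greedy step -/
theorem gr2_step (B : ℕ) (hB : 1 ≤ B) (K : ℕ) (t r : ℝ) (ht : 0 < t) (hr : 0 ≤ r)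
    (hrK : r ≤ K * t) (Λ : List (ℕ × ℕ)) (h1 : t / B ≤ lsum Λ) (h2 : lsum Λ ≤ t)
    (h3 : Λ.length ≤ B) : ∃ L' : List (ℕ × ℕ), L'.length ≤ K * B * B ∧
      (∀ x ∈ L', x ∈ Λ) ∧ 0 ≤ r - lsum L' ∧ r - lsum L' ≤ t := by
  have hB' : (0 : ℝ) < B := by exact_mod_cast hB
  have hρ : 0 < lsum Λ := lt_of_lt_of_le (by positivity) h1
  obtain ⟨L', g1, g2, g3⟩ := gr2_copies Λ ⌊r / lsum Λ⌋₊
  have f1 : (⌊r / lsum Λ⌋₊ : ℝ) ≤ r / lsum Λ := Nat.floor_le (by positivity)
  have f2 : r / lsum Λ < ⌊r / lsum Λ⌋₊ + 1 := Nat.lt_floor_add_one _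
  have f3 : (⌊r / lsum Λ⌋₊ : ℝ) ≤ (K * B : ℕ) := by
    refine f1.trans ?_
    rw [div_le_iff₀ hρ]
    have : (K : ℝ) * t = ((K * B : ℕ) : ℝ) * (t / B) := by
      push_cast
      field_simp
    rw [this] at hrK
    refine hrK.trans ?_
    exact mul_le_mul_of_nonneg_left h1 (Nat.cast_nonneg _)
  have f4 : ⌊r / lsum Λ⌋₊ ≤ K * B := by exact_mod_cast f3
  refine ⟨L', ?_, g2, ?_, ?_⟩
  · rw [g1]
    exact Nat.mul_le_mul f4 h3
  · rw [g3]
    rw [le_div_iff₀ hρ] at f1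
    linarith
  · rw [g3]
    rw [div_lt_iff₀ hρ] at f2
    linarith

theorem gr2 (h1 : ScaStmt) : Gr2Stmt := by
  obtain ⟨C, hC, H⟩ := h1
  refine ⟨4 * C ^ 2 + 2 * C + 1, by omega, ?_⟩
  intro l hl θ hθ0 hθ
  have hl' : 0 < l := hl
  set B : ℕ := C * l ^ C with hBdef
  have hB : 1 ≤ B := Nat.mul_pos hC (pow_pos hl' C)
  have hBB : B ≤ (4 * C ^ 2 + 2 * C + 1) * l ^ (4 * C ^ 2 + 2 * C + 1) := by
    rw [hBdef]
    refine Nat.mul_le_mul ?_ (Nat.pow_le_pow_right hl' ?_)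
    · nlinarith
    · nlinarith
  have key : ∀ i : ℕ, 1 ≤ i → i ≤ l → ∃ L : List (ℕ × ℕ),
      L.length ≤ 2 * l * B * B + i * (2 * B * B) ∧
      (∀ x ∈ L, Odd x.1 ∧ Odd x.2 ∧ x.1 ≤ B ∧ x.2 ≤ B) ∧
      0 ≤ θ - lsum L ∧ θ - lsum L ≤ 1 / 2 ^ i := by
    intro i
    induction i with
    | zero => intro h; omega
    | succ i ih =>
      intro _ hil
      have ht1 : (1 : ℝ) / 2 ^ l ≤ 1 / 2 ^ (i + 1) := by
        apply one_div_le_one_div_of_le (by positivity)
        exact pow_le_pow_right₀ (by norm_num) hil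
      have ht2 : (1 : ℝ) / 2 ^ (i + 1) ≤ 1 / 2 := by
        apply one_div_le_one_div_of_le (by norm_num)
        calc (2 : ℝ) = 2 ^ 1 := by norm_num
          _ ≤ 2 ^ (i + 1) := pow_le_pow_right₀ (by norm_num) (by omega)
      obtain ⟨Λ, g1, g2, g3, g4⟩ := H l hl _ ht1 ht2
      have g3' : (1 / 2 ^ (i + 1) : ℝ) / (B : ℕ) ≤ lsum Λ := by
        rw [hBdef]
        push_cast
        exact g3
      rcases Nat.eq_zero_or_pos i with hi | hi
      · subst hi
        have hr : θ ≤ ((2 * l : ℕ) : ℝ) * (1 / 2 ^ (0 + 1)) := by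
          push_cast
          linarith
        obtain ⟨L', k1, k2, k3, k4⟩ := gr2_step B hB (2 * l) _ θ (by positivity) hθ0 hr Λ g3' g4 g1
        refine ⟨L', ?_, ?_, k3, k4⟩
        · exact k1.trans (Nat.le_add_right _ _)
        · intro x hx
          exact g2 x (k2 x hx)
      · obtain ⟨L, e1, e2, e3, e4⟩ := ih hi (by omega)
        have hr : θ - lsum L ≤ ((2 : ℕ) : ℝ) * (1 / 2 ^ (i + 1)) := by
          refine e4.trans (le_of_eq ?_)
          rw [pow_succ]
          push_cast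
          field_simp
        obtain ⟨L', k1, k2, k3, k4⟩ := gr2_step B hB 2 _ (θ - lsum L) (by positivity) e3 hr Λ
          g3' g4 g1
        refine ⟨L ++ L', ?_, ?_, ?_, ?_⟩
        · rw [List.length_append]
          calc L.length + L'.length ≤ (2 * l * B * B + i * (2 * B * B)) + 2 * B * B :=
                Nat.add_le_add e1 k1
            _ = 2 * l * B * B + (i + 1) * (2 * B * B) := by ring
        · intro x hx
          rcases List.mem_append.mp hx with hx | hx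
          · exact e2 x hx
          · exact g2 x (k2 x hx)
        · rw [gr2_append]
          linarith
        · rw [gr2_append]
          linarith
  obtain ⟨L, e1, e2, e3, e4⟩ := key l hl le_rfl
  refine ⟨L, ?_, ?_, e3, e4⟩
  · refine e1.trans ?_
    have h5 : 2 * l * B * B + l * (2 * B * B) = 4 * C ^ 2 * l ^ (2 * C + 1) := by
      rw [hBdef]
      ring
    rw [h5]
    refine Nat.mul_le_mul (by omega) (Nat.pow_le_pow_right hl' (by omega))
  · intro x hx
    obtain ⟨a, b, c, d⟩ := e2 x hx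
    exact ⟨a, b, c.trans hBB, d.trans hBB⟩

end Pool.Agent.OPH.H44
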